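import Pool.Agent.helper76.UF.Spec

/-! Row ANR of project UF (MP_37e5fa) -/

set_option autoImplicit false

namespace Pool.Agent.UF

open Finset Polynomial NumberField

theorem ANR_card (R : Type) [CommRing R] (f : R) (F : ℕ) (h1 : ∀ n : ℤ, f ∣ (n : R) → (F : ℤ) ∣ n)
    (h2 : f ∣ (F : R)) (h3 : ∀ y : R, ∃ n : ℤ, f ∣ y - (n : R)) :
    Nat.card (R ⧸ Ideal.span {f}) = F := by
  let φ : ℤ →+* R ⧸ Ideal.span {f} := Int.castRingHom _
  have hs : Function.Surjective φ := by
    intro y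
    obtain ⟨y, rfl⟩ := Ideal.Quotient.mk_surjective y
    obtain ⟨n, hn⟩ := h3 y
    refine ⟨n, ?_⟩
    have h4 : Ideal.Quotient.mk (Ideal.span {f}) (y - (n : R)) = 0 := by
      rw [Ideal.Quotient.eq_zero_iff_mem, Ideal.mem_span_singleton]
      exact hn
    rw [map_sub, sub_eq_zero, map_intCast] at h4
    rw [h4]
    rfl
  have hk : RingHom.ker φ = Ideal.span {(F : ℤ)} := by
    ext n
    rw [RingHom.mem_ker, Ideal.mem_span_singleton]
    have e : φ n = Ideal.Quotient.mk (Ideal.span {f}) (n : R) := by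
      rw [map_intCast]
      rfl
    rw [e, Ideal.Quotient.eq_zero_iff_mem, Ideal.mem_span_singleton]
    constructor
    · exact h1 n
    · rintro ⟨k, rfl⟩
      rw [Int.cast_mul, Int.cast_natCast]
      exact h2.mul_right _
  have e1 := Nat.card_congr (RingHom.quotientKerEquivOfSurjective hs).toEquiv
  rw [← e1, hk, Nat.card_congr (Int.quotientSpanNatEquivZMod F).toEquiv, Nat.card_zmod]

theorem ANR (h1 : QUK_stmt) (h2 : QUO_stmt) : ANR_stmt := by
  intro m a t K _ _ z hz ht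
  obtain ⟨s, hs⟩ := hz.2.2 t ht
  have hN : 1 ≤ 2 ^ m := Nat.one_le_two_pow
  have hz1 : Cyc (1 * 2 ^ m) z := by rwa [one_mul]
  obtain ⟨q1, q2⟩ := h1 (2 ^ m) 1 a (𝓞 K) z hN le_rfl hz1
  have hf : s (ff a z 1) = ff a z t := by
    unfold ff
    rw [map_sub, map_natCast, pow_one, hs]
  have hcard : Nat.card (𝓞 K ⧸ Ideal.span {ff a z t}) = a ^ (2 ^ m) + 1 := by
    refine ANR_card (𝓞 K) (ff a z t) (a ^ (2 ^ m) + 1) ?_ ?_ ?_
    · intro n hn
      apply q1 n
      have := map_dvd s.symm hn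
      rwa [← hf, RingEquiv.symm_apply_apply, map_intCast] at this
    · have := map_dvd s q2
      rwa [hf, map_natCast] at this
    · intro y
      obtain ⟨n, hn⟩ := h2 (2 ^ m) a (𝓞 K) z hz (s.symm y)
      refine ⟨n, ?_⟩
      have := map_dvd s hn
      rwa [hf, map_sub, RingEquiv.apply_symm_apply, map_intCast] at this
  rw [Ideal.absNorm_apply, Submodule.cardQuot_apply]
  exact hcard

end Pool.Agent.UF
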