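import Pool.Agent.helper76.UF.Spec

/-! Row BIN of project UF (MP_37e5fa) -/

set_option autoImplicit false

namespace Pool.Agent.UF

open Finset Polynomial NumberField

theorem BIN_ext {N : ℕ} {R : Type} [CommRing R] {x : R}
    (h : ∀ a : R, ∃ c : ℕ → ℤ, a = ∑ i ∈ range N, (c i : R) * x ^ i) (f g : R →+* R)
    (hx : f x = g x) (a : R) : f a = g a := by
  obtain ⟨c, rfl⟩ := h a
  rw [map_sum, map_sum]
  refine Finset.sum_congr rfl fun i _ => ?_
  rw [map_mul, map_mul, map_intCast, map_intCast, map_pow, map_pow, hx]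

theorem BIN : BIN_stmt := by
  intro N R _ x hN hx
  obtain ⟨b, hb⟩ := hx.2.2 (2 * N - 1) ⟨N - 1, by omega⟩
  have h1 : b x * x = 1 := by
    rw [hb, ← pow_succ]
    have e : 2 * N - 1 + 1 = N * 2 := by omega
    rw [e, pow_mul, hx.1.1]
    ring
  have h2 : b (b x) = x := by
    have h3 : b (b x) * b x = 1 := by
      rw [← map_mul, h1, map_one]
    calc b (b x) = b (b x) * (b x * x) := by rw [h1, mul_one]
      _ = (b (b x) * b x) * x := by ring
      _ = x := by rw [h3, one_mul]
  refine ⟨b, ⟨h1, ?_⟩, ?_⟩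
  · intro a
    have := BIN_ext hx.2.1 ((b : R →+* R).comp (b : R →+* R)) (RingHom.id R) (by simpa using h2) a
    simpa using this
  · intro t s hs a
    have h4 : s (b x) = b (s x) := by
      have h5 : s (b x) * s x = 1 := by rw [← map_mul, h1, map_one]
      have h6 : s x * b (s x) = 1 := by
        rw [hs, map_pow, ← mul_pow, mul_comm x, h1, one_pow]
      calc s (b x) = s (b x) * (s x * b (s x)) := by rw [h6, mul_one]
        _ = (s (b x) * s x) * b (s x) := by ring
        _ = b (s x) := by rw [h5, one_mul]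
    have := BIN_ext hx.2.1 ((s : R →+* R).comp (b : R →+* R)) ((b : R →+* R).comp (s : R →+* R))
      (by simpa using h4) a
    simpa using this

end Pool.Agent.UF
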